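import Mathlib

/-!
# A monotone selector of `G_δ` representatives of Lebesgue measurable sets

`psi M` is the set of the points at which `M` has upper symmetric density one along the
radii `2 ^ (-n)`.
-/

namespace Pool.Agent.Results.MP_2abcfb_lc.MonotoneGdelta

open MeasureTheory Set Filter Topology

/-- The points whose ball of radius `2 ^ (-n)` meets `M` in measure larger than
`(1 - 1 / (k + 1))` times the measure of the ball. -/
def good (M : Set ℝ) (k n : ℕ) : Set ℝ :=
  {x | ENNReal.ofReal ((1 - 1 / ((k : ℝ) + 1)) * (2 * (1 / 2 : ℝ) ^ n)) <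
    volume (M ∩ Metric.ball x ((1 / 2 : ℝ) ^ n))}

/-- The points of upper density one along the radii `2 ^ (-n)`. -/
def psi (M : Set ℝ) : Set ℝ :=
  ⋂ (k : ℕ), ⋂ (m : ℕ), ⋃ (n : ℕ), ⋃ (_ : m ≤ n), good M k n

theorem isOpen_lt_measure_inter_ball (M : Set ℝ) (c : ENNReal) (r : ℝ) :
    IsOpen {x : ℝ | c < volume (M ∩ Metric.ball x r)} := by
  rw [Metric.isOpen_iff]
  intro x hx
  simp only [mem_ofPred_eq] at hx
  have hU : M ∩ Metric.ball x r = ⋃ n : ℕ, M ∩ Metric.ball x (r - 1 / ((n : ℝ) + 1)) := by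
    rw [← inter_iUnion]
    congr 1
    ext y
    simp only [Metric.mem_ball, mem_iUnion]
    constructor
    · intro h
      obtain ⟨n, hn⟩ := exists_nat_one_div_lt (sub_pos.2 h)
      exact ⟨n, by linarith⟩
    · rintro ⟨n, hn⟩
      have : 0 < 1 / ((n : ℝ) + 1) := by positivity
      linarith
  have hmono : Monotone fun n : ℕ => M ∩ Metric.ball x (r - 1 / ((n : ℝ) + 1)) := by
    intro a b hab
    refine inter_subset_inter_right _ (Metric.ball_subset_ball ?_)
    have : 1 / ((b : ℝ) + 1) ≤ 1 / ((a : ℝ) + 1) := by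
      apply one_div_le_one_div_of_le
      · positivity
      · have : (a : ℝ) ≤ b := by exact_mod_cast hab
        linarith
    linarith
  rw [hU, hmono.measure_iUnion, lt_iSup_iff] at hx
  obtain ⟨n, hn⟩ := hx
  refine ⟨1 / ((n : ℝ) + 1), by positivity, ?_⟩
  intro y hy
  simp only [mem_ofPred_eq]
  refine hn.trans_le (measure_mono (inter_subset_inter_right _ ?_))
  intro z hz
  simp only [Metric.mem_ball] at hz hy ⊢
  have := dist_triangle z x y
  rw [dist_comm] at hy
  linarith

theorem isGδ_psi (M : Set ℝ) : IsGδ (psi M) := by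
  refine IsGδ.iInter fun k => IsGδ.iInter fun m => IsOpen.isGδ ?_
  exact isOpen_iUnion fun n => isOpen_iUnion fun _ => isOpen_lt_measure_inter_ball M _ _

theorem psi_mono {M M' : Set ℝ} (h : M ⊆ M') : psi M ⊆ psi M' := by
  refine iInter_mono fun k => iInter_mono fun m => iUnion_mono fun n => iUnion_mono fun _ => ?_
  intro x hx
  exact lt_of_lt_of_le hx (measure_mono (inter_subset_inter_left _ h))

theorem psi_congr {M M' : Set ℝ} (h : M =ᵐ[volume] M') : psi M = psi M' := by
  have : ∀ k n, good M k n = good M' k n := by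
    intro k n
    ext x
    simp only [good, mem_ofPred_eq]
    rw [measure_congr (h.inter (ae_eq_refl _))]
  simp only [psi, this]

theorem vol_ball (x : ℝ) (n : ℕ) :
    volume (Metric.ball x ((1 / 2 : ℝ) ^ n)) = ENNReal.ofReal (2 * (1 / 2 : ℝ) ^ n) := by
  rw [Real.volume_ball]

theorem vol_cball (x : ℝ) (n : ℕ) :
    volume (Metric.closedBall x ((1 / 2 : ℝ) ^ n)) = ENNReal.ofReal (2 * (1 / 2 : ℝ) ^ n) := by
  rw [Real.volume_closedBall]

theorem ball_ae_eq (x r : ℝ) : Metric.ball x r =ᵐ[volume] Metric.closedBall x r := by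
  rw [Real.ball_eq_Ioo, Real.closedBall_eq_Icc]
  exact Ioo_ae_eq_Icc

theorem tendsto_radii : Tendsto (fun n : ℕ => (1 / 2 : ℝ) ^ n) atTop (𝓝[>] 0) := by
  rw [tendsto_nhdsWithin_iff]
  refine ⟨tendsto_pow_atTop_nhds_zero_of_lt_one (by norm_num) (by norm_num), ?_⟩
  exact Eventually.of_forall fun n => by simp

theorem psi_ae_eq_of_measurable {M : Set ℝ} (hM : MeasurableSet M) : psi M =ᵐ[volume] M := by
  have hd := Besicovitch.ae_tendsto_measure_inter_div_of_measurableSet (volume : Measure ℝ) hM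
  filter_upwards [hd] with x hx
  have hx' := hx.comp tendsto_radii
  apply propext
  change x ∈ psi M ↔ x ∈ M
  have key : ∀ n : ℕ, volume (M ∩ Metric.ball x ((1 / 2 : ℝ) ^ n)) =
      volume (M ∩ Metric.closedBall x ((1 / 2 : ℝ) ^ n)) := fun n =>
    measure_congr ((ae_eq_refl _).inter (ball_ae_eq x _))
  constructor
  · intro hxp
    by_contra hxM
    rw [indicator_of_notMem hxM] at hx'
    have hev : ∀ᶠ n : ℕ in atTop, volume (M ∩ Metric.closedBall x ((1 / 2 : ℝ) ^ n)) /
        volume (Metric.closedBall x ((1 / 2 : ℝ) ^ n)) < ENNReal.ofReal (1 / 2) := by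
      apply hx'.eventually_lt_const
      simp
    obtain ⟨m, hm⟩ := eventually_atTop.1 hev
    have h1 := mem_iInter.1 (mem_iInter.1 hxp 1) m
    simp only [mem_iUnion] at h1
    obtain ⟨n, hmn, hn⟩ := h1
    simp only [good, mem_ofPred_eq] at hn
    rw [key n] at hn
    have h2 := hm n hmn
    rw [vol_cball] at h2
    have hpos : (0 : ℝ) < 2 * (1 / 2 : ℝ) ^ n := by positivity
    rw [ENNReal.div_lt_iff (Or.inl (by simp)) (Or.inl ENNReal.ofReal_ne_top),
      ← ENNReal.ofReal_mul (by norm_num)] at h2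
    have h3 := hn.trans h2
    norm_num at h3
  · intro hxM
    rw [indicator_of_mem hxM] at hx'
    simp only [psi, mem_iInter, mem_iUnion]
    intro k m
    have hlt : ENNReal.ofReal (1 - 1 / ((k : ℝ) + 1)) < (1 : ℝ → ENNReal) x := by
      simp only [Pi.one_apply]
      rw [← ENNReal.ofReal_one, ENNReal.ofReal_lt_ofReal_iff (by norm_num)]
      have : 0 < 1 / ((k : ℝ) + 1) := by positivity
      linarith
    have hev := hx'.eventually_const_lt hlt
    obtain ⟨n, hn, hmn⟩ := (hev.and (eventually_ge_atTop m)).exists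
    refine ⟨n, hmn, ?_⟩
    simp only [good, mem_ofPred_eq]
    rw [key n]
    simp only [Function.comp_apply] at hn
    rw [vol_cball] at hn
    have hpos : (0 : ℝ) < 2 * (1 / 2 : ℝ) ^ n := by positivity
    rw [ENNReal.lt_div_iff_mul_lt (Or.inl (by simp)) (Or.inl ENNReal.ofReal_ne_top),
      ← ENNReal.ofReal_mul] at hn
    · exact hn
    · have : 1 / ((k : ℝ) + 1) ≤ 1 := by
        rw [div_le_one (by positivity)]
        have : (0 : ℝ) ≤ k := by positivity
        linarith
      linarith

theorem psi_ae_eq {M : Set ℝ} (hM : NullMeasurableSet M volume) : psi M =ᵐ[volume] M := by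
  obtain ⟨M', hM', hMM'⟩ := hM
  rw [psi_congr hMM']
  exact (psi_ae_eq_of_measurable hM').trans hMM'.symm

/-- There is a monotone map `ψ` assigning to each Lebesgue measurable set `M` of reals a
`G_δ` set `ψ M` which differs from `M` by a null set, with `ψ M = ψ M'` whenever `M` and `M'`
differ by a null set. -/
theorem result : ∃ ψ : Set ℝ → Set ℝ,
    (∀ M, NullMeasurableSet M volume → IsGδ (ψ M)) ∧
    (∀ M M', NullMeasurableSet M volume → NullMeasurableSet M' volume →
      M ⊆ M' → ψ M ⊆ ψ M') ∧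
    (∀ M, NullMeasurableSet M volume → volume (symmDiff M (ψ M)) = 0) ∧
    (∀ M M', NullMeasurableSet M volume → NullMeasurableSet M' volume →
      volume (symmDiff M M') = 0 → ψ M = ψ M') := by
  refine ⟨psi, fun M _ => isGδ_psi M, fun M M' _ _ h => psi_mono h, fun M hM => ?_,
    fun M M' _ _ h => ?_⟩
  · rw [measure_symmDiff_eq_zero_iff]
    exact (psi_ae_eq hM).symm
  · rw [measure_symmDiff_eq_zero_iff] at h
    exact psi_congr h

end Pool.Agent.Results.MP_2abcfb_lc.MonotoneGdelta
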